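import Pool.Agent.Lib.MP_799fdf_al.Str.B2

set_option autoImplicit false

open scoped commutatorElement

namespace MP799fdf

namespace Str

open Inn

theorem b4_com {H : Type} [Group H] {a b p q : H}
    (h2 : p * b = b * p) (h3 : q * a = a * q) (h5 : p * q = q * p) :
    ⁅a * p, b * q⁆ = ⁅a, b⁆ := by
  have e1 : (a * p) * (b * q) = (a * b) * (p * q) := by
    calc (a * p) * (b * q) = a * (p * b) * q := by group
      _ = a * (b * p) * q := by rw [h2]
      _ = (a * b) * (p * q) := by group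
  have e2 : (b * q) * (a * p) = (b * a) * (p * q) := by
    calc (b * q) * (a * p) = b * (q * a) * p := by group
      _ = b * (a * q) * p := by rw [h3]
      _ = (b * a) * (q * p) := by group
      _ = (b * a) * (p * q) := by rw [h5]
  have e3 : ⁅a * p, b * q⁆ = ((a * p) * (b * q)) * ((b * q) * (a * p))⁻¹ := by
    rw [commutatorElement_def, mul_inv_rev (b * q) (a * p), mul_assoc ((a * p) * (b * q))]
  rw [e3, e1, e2, commutatorElement_def, mul_inv_rev, mul_inv_rev]
  group

section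

variable {G U : Type} [Group G] [Group U] {R N Z D : Subgroup G} [Z.Normal] {f : U →* G}
variable {ι : U →* Sg G Z}

/-- Automorphisms of `G* / Z*` and their lifts. -/
theorem iota_lift (S : Dat G U R N Z f)
    (hι : ∀ (s : (G ⧸ Z) ≃* (G ⧸ Z)) (b : U ≃* U), LiU f s b → ∀ u, ev s (ι u) = f (b u))
    [(As Z Z).Normal] (σ' : (Sg G Z ⧸ As Z Z) ≃* (Sg G Z ⧸ As Z Z)) :
    ∃ (σ : (G ⧸ Z) ≃* (G ⧸ Z)) (b : U ≃* U), LiU f σ b ∧
      (∀ x y : Sg G Z, σ' (x : Sg G Z ⧸ As Z Z) = (y : Sg G Z ⧸ As Z Z) ↔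
        σ ((ev (MulEquiv.refl _) x : G) : G ⧸ Z) = ((ev (MulEquiv.refl _) y : G) : G ⧸ Z)) ∧
      (∃ τ : ι.range ≃* ι.range, Cry.Lift σ' τ) ∧
      ∀ τ : ι.range ≃* ι.range, Cry.Lift σ' τ →
        ∀ (u : U) (r : ι.range), (r : Sg G Z) = ι u → ((τ r : ι.range) : Sg G Z) = ι (b u) := by
  -- the isomorphism `θ`
  obtain ⟨θ, hθ⟩ : ∃ θ : (Sg G Z ⧸ As Z Z) ≃* (G ⧸ Z), ∀ x : Sg G Z,
      θ (x : Sg G Z ⧸ As Z Z) = ((ev (MulEquiv.refl _) x : G) : G ⧸ Z) := by
    let φ : Sg G Z →* G ⧸ Z := (QuotientGroup.mk' Z).comp (ev (MulEquiv.refl _))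
    have hφ : Function.Surjective φ :=
      (QuotientGroup.mk'_surjective Z).comp (ev_surj (MulEquiv.refl _))
    have hk : As Z Z = φ.ker := by
      ext x
      rw [MonoidHom.mem_ker]
      change ev (MulEquiv.refl _) x ∈ Z ↔ ((ev (MulEquiv.refl _) x : G) : G ⧸ Z) = 1
      rw [QuotientGroup.eq_one_iff]
    exact ⟨(QuotientGroup.quotientMulEquivOfEq hk).trans
      (QuotientGroup.quotientKerEquivOfSurjective φ hφ), fun x => rfl⟩
  let σ : (G ⧸ Z) ≃* (G ⧸ Z) := (θ.symm.trans σ').trans θ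
  have hσ : ∀ q, σ (θ q) = θ (σ' q) := fun q => by
    change θ (σ' (θ.symm (θ q))) = θ (σ' q)
    rw [MulEquiv.symm_apply_apply]
  obtain ⟨b, hb⟩ := S.lift σ
  have h3 : ∀ x y : Sg G Z, σ' (x : Sg G Z ⧸ As Z Z) = (y : Sg G Z ⧸ As Z Z) ↔
      σ ((ev (MulEquiv.refl _) x : G) : G ⧸ Z) = ((ev (MulEquiv.refl _) y : G) : G ⧸ Z) := by
    intro x y
    rw [← hθ, ← hθ, hσ]
    exact θ.injective.eq_iff.symm
  have hq : ∀ u : U, σ' ((ι u : Sg G Z) : Sg G Z ⧸ As Z Z) = ((ι (b u) : Sg G Z) : Sg G Z ⧸ As Z Z) := by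
    intro u
    rw [h3, iota_one S hι, iota_one S hι]
    exact (hb u).symm
  have hbs : LiU f σ.symm b.symm := by
    intro u
    have h := hb (b.symm u)
    rw [MulEquiv.apply_symm_apply] at h
    rw [h, MulEquiv.symm_apply_apply]
  have hker : ∀ u : U, ι u = 1 ↔ ι (b u) = 1 := by
    intro u
    constructor
    · intro h
      rw [iota_ker S hι] at h ⊢
      intro s c hc
      refine h (σ.trans s) (b.trans c) fun v => ?_
      change ((f (c (b v)) : G) : G ⧸ Z) = s (σ ((f v : G) : G ⧸ Z))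
      rw [hc, hb]
    · intro h
      rw [iota_ker S hι] at h ⊢
      intro s c hc
      have h' := h (σ.symm.trans s) (b.symm.trans c) fun v => by
        change ((f (c (b.symm v)) : G) : G ⧸ Z) = s (σ.symm ((f v : G) : G ⧸ Z))
        rw [hc, hbs]
      have e : (b.symm.trans c) (b u) = c u := by
        change c (b.symm (b u)) = c u
        rw [MulEquiv.symm_apply_apply]
      rwa [e] at h'
  refine ⟨σ, b, hb, h3, ?_, ?_⟩
  · let α : U →* ι.range := ι.rangeRestrict
    let β : U →* ι.range := ι.rangeRestrict.comp b.toMonoidHom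
    have hα : Function.Surjective α := ι.rangeRestrict_surjective
    have hβ : Function.Surjective β := ι.rangeRestrict_surjective.comp b.surjective
    have hk : α.ker = β.ker := by
      ext u
      rw [MonoidHom.mem_ker, MonoidHom.mem_ker]
      constructor
      · intro h
        have h' : ι u = 1 := congrArg Subtype.val h
        exact Subtype.ext ((hker u).1 h')
      · intro h
        have h' : ι (b u) = 1 := congrArg Subtype.val h
        exact Subtype.ext ((hker u).2 h')
    obtain ⟨τ, hτ⟩ : ∃ τ : ι.range ≃* ι.range, ∀ u, τ (α u) = β u := by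
      refine ⟨((QuotientGroup.quotientKerEquivOfSurjective α hα).symm.trans
        (QuotientGroup.quotientMulEquivOfEq hk)).trans
        (QuotientGroup.quotientKerEquivOfSurjective β hβ), fun u => ?_⟩
      have e : (QuotientGroup.quotientKerEquivOfSurjective α hα).symm (α u) = (u : U ⧸ α.ker) := by
        rw [MulEquiv.symm_apply_eq]
        rfl
      rw [MulEquiv.trans_apply, MulEquiv.trans_apply, e]
      rfl
    refine ⟨τ, fun r => ?_⟩
    obtain ⟨u, hu⟩ := hα r
    rw [← hu, hτ]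
    exact (hq u).symm
  · intro τ hτ
    let A : U →* Sg G Z := (ι.range.subtype.comp τ.toMonoidHom).comp ι.rangeRestrict
    let B : U →* Sg G Z := ι.comp b.toMonoidHom
    have hA : ∀ u, A u ∈ ι.range := fun u => (τ (ι.rangeRestrict u)).2
    have hB : ∀ u, B u ∈ ι.range := fun u => ⟨b u, rfl⟩
    have hAB : ∀ u, ((A u : Sg G Z) : Sg G Z ⧸ As Z Z) = ((B u : Sg G Z) : Sg G Z ⧸ As Z Z) :=
      fun u => (hτ (ι.rangeRestrict u)).trans (hq u)
    have hc : ∀ u, ∀ r ∈ ι.range, ((B u)⁻¹ * A u) * r = r * ((B u)⁻¹ * A u) := by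
      intro u
      rw [← iota_cen S hι]
      exact QuotientGroup.eq.1 (hAB u).symm
    have hall : A = B := by
      have h1 : ⁅(⊤ : Subgroup U), (⊤ : Subgroup U)⁆ ≤ MonoidHom.eqLocus A B := by
        rw [Subgroup.commutator_le]
        intro u _ v _
        change A ⁅u, v⁆ = B ⁅u, v⁆
        rw [map_commutatorElement, map_commutatorElement]
        have e1 : A u = B u * ((B u)⁻¹ * A u) := by group
        have e2 : A v = B v * ((B v)⁻¹ * A v) := by group
        rw [e1, e2]
        exact b4_com (hc u _ (hB v)) (hc v _ (hB u))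
          (hc u _ (mul_mem (inv_mem (hB v)) (hA v)))
      rw [S.perf] at h1
      ext1 u
      exact h1 (Subgroup.mem_top u)
    intro u r hr
    have h1 : r = ι.rangeRestrict u := Subtype.ext hr
    rw [h1]
    exact DFunLike.congr_fun hall u

end

end Str

end MP799fdf
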