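import Pool.Agent.Lib.MP_799fdf_al.Str.B3
import Pool.Agent.Lib.MP_799fdf_al.Str.B4
import Pool.Agent.Lib.MP_799fdf_al.Mnf.StD

set_option autoImplicit false

open scoped commutatorElement

namespace MP799fdf

namespace Str

open Inn

/-- There is a section `B / A` above `R Z`, `A` characteristic modulo `Z`, `B / A` abelian of order divisible by `p`, and the lifts
`U → U` of the automorphisms of `G / Z` that are trivial modulo `A` centralise a section `H / Y` of `f⁻¹(Z)` of order divisible by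
`p` such that `Y` contains all `u` with `f (b u) ∈ D` for all lifts `b`. -/
def SteUD {G U : Type} [Group G] [Group U] (p : ℕ) (R Z D : Subgroup G) [Z.Normal] (f : U →* G) :
    Prop :=
  ∃ (A B : Subgroup G) (H Y : Subgroup U), A.Normal ∧ B.Normal ∧ R ⊔ Z ≤ A ∧ A ≤ B ∧ ⁅B, B⁆ ≤ A ∧
    p ∣ A.relIndex B ∧
    (∀ (σ : (G ⧸ Z) ≃* (G ⧸ Z)) (x y : G), σ (x : G ⧸ Z) = (y : G ⧸ Z) → x ∈ A → y ∈ A) ∧
    Y ≤ H ∧ (∀ u ∈ H, f u ∈ Z) ∧ p ∣ Y.relIndex H ∧
    (∀ u : U, (∀ (σ : (G ⧸ Z) ≃* (G ⧸ Z)) (b : U ≃* U), LiU f σ b → f (b u) ∈ D) → u ∈ Y) ∧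
    ∀ (σ : (G ⧸ Z) ≃* (G ⧸ Z)) (b : U ≃* U), LiU f σ b →
      (∀ x y : G, σ (x : G ⧸ Z) = (y : G ⧸ Z) → x⁻¹ * y ∈ A) → ∀ u ∈ H, b u * u⁻¹ ∈ Y

/-- The infinite direction without the lifting hypothesis. -/
theorem inf_covD {G U : Type} [Group G] [Finite G] [Group U] {R N D Z : Subgroup G} [Z.Normal]
    {f : U →* G} {p : ℕ} (hp : p.Prime) (S : Dat G U R N Z f) (hD : D.Normal) (hDZ : D ≤ Z)
    (hother : ∀ L M : Subgroup G, Loc L M → M.relIndex L = N.relIndex R → L = R ∨ L ≤ D)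
    (hS : SteUD p R Z D f) : {F : Formation | F.IsSub (form G)}.Infinite := by
  obtain ⟨A, B, H, Y, hA, hB, hRZA, hAB, hBA, hpB, hc, hYH, hHZ, hpH, hker, hfix⟩ := hS
  have hfin : Finite (Sg G Z) := finite_sg
  obtain ⟨ι, hι⟩ := exists_iota S
  have hZn : (As Z Z).Normal := as_normal inferInstance
  have hDn : (Ds Z D).Normal := ds_normal hD
  have hlocS := iota_loc S hι
  have h1 := iota_one S hι
  have hkerY : ι.ker ≤ Y := by
    intro u hu
    refine hker u fun σ b hb => ?_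
    rw [(iota_ker S hι u).1 hu σ b hb]
    exact D.one_mem
  have hSte : Mnf.SteD p ι.range ((N.comap f).map ι) (As Z Z) (Ds Z D) := by
    refine ⟨As Z A, As Z B, H.map ι, Y.map ι, as_normal hA, as_normal hB, ?_, ?_, as_comm hBA, ?_,
      ?_, Subgroup.map_mono hYH, ?_, ?_, ?_, ?_⟩
    · refine sup_le ?_ ?_
      · rintro _ ⟨u, rfl⟩
        show ev (MulEquiv.refl _) (ι u) ∈ A
        rw [h1]
        refine hRZA (Subgroup.mem_sup_left ?_)
        rw [← S.ran]
        exact ⟨u, rfl⟩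
      · intro x hx
        exact hRZA (Subgroup.mem_sup_right hx)
    · intro x hx
      exact hAB hx
    · rw [as_rel]
      exact hpB
    · intro σ' x y hxy hx
      obtain ⟨σ, b, -, h2, -, -⟩ := iota_lift S hι σ'
      exact hc σ _ _ ((h2 x y).1 hxy) hx
    · rintro _ ⟨u, hu, rfl⟩
      refine ⟨u, ?_, rfl⟩
      exact S.RZ _ (by rw [← S.ran]; exact ⟨u, rfl⟩) (hHZ u hu)
    · rw [Subgroup.relIndex_map_map, sup_eq_left.2 hkerY, sup_eq_left.2 (hkerY.trans hYH)]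
      exact hpH
    · rintro _ ⟨⟨u, rfl⟩, hu⟩
      refine ⟨u, hker u fun σ b hb => ?_, rfl⟩
      rw [← hι σ b hb]
      exact hu σ
    · intro σ' t ht hσ' z hz
      obtain ⟨σ, b, hb, h2, -, h3⟩ := iota_lift S hι σ'
      obtain ⟨u, hu, huz⟩ := Subgroup.mem_map.1 hz
      have h4 := h3 t ht u z huz.symm
      rw [h4, ← huz, ← map_inv, ← map_mul]
      refine ⟨b u * u⁻¹, hfix σ b hb (fun x y hxy => ?_) u hu, rfl⟩
      obtain ⟨x', hx'⟩ := ev_surj (MulEquiv.refl (G ⧸ Z)) x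
      obtain ⟨y', hy'⟩ := ev_surj (MulEquiv.refl (G ⧸ Z)) y
      have h5 := hσ' x' y' ((h2 x' y').2 (by rw [hx', hy']; exact hxy))
      have h6 : ev (MulEquiv.refl _) (x'⁻¹ * y') ∈ A := h5
      rw [map_mul, map_inv, hx', hy'] at h6
      exact h6
  have hinf := Mnf.inf_steD (D := Ds Z D) hp hlocS (iota_cen S hι) (iota_NZ S hι)
    (fun x hx => hDZ (hx (MulEquiv.refl _)))
    (fun σ' τ hτ r hr s => by
      obtain ⟨σ, b, hb, -, -, h3⟩ := iota_lift S hι σ'
      obtain ⟨u, hu⟩ := r.2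
      obtain ⟨c, hc⟩ := S.lift s
      have h4 : LiU f (σ.trans s) (b.trans c) := fun v => by
        rw [MulEquiv.trans_apply, MulEquiv.trans_apply, hc, hb]
      rw [h3 τ hτ u r hu.symm, hι s c hc, ← MulEquiv.trans_apply, ← hι (σ.trans s) (b.trans c) h4,
        hu]
      exact hr _)
    (fun L M hL hi => iota_other S hι hother L M hL hi)
    (fun σ' => by
      obtain ⟨-, -, -, -, h2, -⟩ := iota_lift S hι σ'
      exact h2) hSte
  refine hinf.mono fun F hF => ?_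
  intro K _ _ hK
  exact form_le (form G) form_mem_sg K (hF K hK)

end Str

end MP799fdf
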