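import Pool.Agent.Lib.MP_799fdf_al.Str.Defs

set_option autoImplicit false

open scoped commutatorElement

namespace MP799fdf

namespace Str

open Inn

/-- PROOF. `g` given. Take `x t` with `(x t : G ⧸ Z) = t (s.symm (g : G ⧸ Z))`, and `x s = g` (`Quotient.out`, `if t = s then g else ..`). -/
theorem ev_surj {G : Type} [Group G] {Z : Subgroup G} [Z.Normal] (s : (G ⧸ Z) ≃* (G ⧸ Z)) :
    Function.Surjective (ev s) := by
  classical
  intro g
  obtain ⟨c, hc⟩ : ∃ c : G ⧸ Z, s c = (g : G ⧸ Z) := ⟨s.symm (g : G ⧸ Z), s.apply_symm_apply _⟩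
  have h1 : ∀ t : (G ⧸ Z) ≃* (G ⧸ Z),
      (((if t = s then g else Quotient.out (t c) : G)) : G ⧸ Z) = t c := by
    intro t
    by_cases h : t = s
    · rw [if_pos h, h, hc]
    · rw [if_neg h]
      exact QuotientGroup.out_eq' _
  refine ⟨⟨fun t => if t = s then g else Quotient.out (t c), fun t => ?_⟩, ?_⟩
  · change (((if t = s then g else Quotient.out (t c) : G)) : G ⧸ Z) =
      t (((if MulEquiv.refl (G ⧸ Z) = s then g else
        Quotient.out ((MulEquiv.refl (G ⧸ Z)) c) : G)) : G ⧸ Z)
    rw [h1 t, h1 (MulEquiv.refl (G ⧸ Z))]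
    rfl
  · change (if s = s then g else Quotient.out (s c)) = g
    rw [if_pos rfl]

theorem finite_sg {G : Type} [Group G] [Finite G] {Z : Subgroup G} [Z.Normal] : Finite (Sg G Z) := by
  infer_instance

/-- PROOF. `Formation.of_family` as in `form_mem_of` in `Mnf/Quo.lean`. -/
theorem form_mem_sg {G : Type} [Group G] [Finite G] {Z : Subgroup G} [Z.Normal] [Finite (Sg G Z)] :
    (form G).mem (Sg G Z) := by
  refine Formation.of_family (form G) (J := (G ⧸ Z) ≃* (G ⧸ Z)) (fun _ => G) (fun s => ev s)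
    (fun s => ev_surj s) (fun _ => mem_form G) ?_
  intro x hx
  exact Subtype.ext (funext fun s => hx s)

theorem ds_normal {G : Type} [Group G] {Z D : Subgroup G} [Z.Normal] (hD : D.Normal) :
    (Ds Z D).Normal := by
  constructor
  intro x hx y s
  rw [map_mul, map_mul, map_inv]
  exact hD.conj_mem _ (hx s) _

theorem as_normal {G : Type} [Group G] {Z A : Subgroup G} [Z.Normal] (hA : A.Normal) :
    (As Z A).Normal := by
  unfold As
  exact hA.comap _

/-- PROOF. `Subgroup.relIndex_comap`, `Subgroup.map_comap_eq_self_of_surjective`. -/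
theorem as_rel {G : Type} [Group G] {Z A B : Subgroup G} [Z.Normal] :
    (As Z A).relIndex (As Z B) = A.relIndex B := by
  unfold As
  rw [Subgroup.relIndex_comap, Subgroup.map_comap_eq_self_of_surjective (ev_surj _)]

theorem as_comm {G : Type} [Group G] {Z A B : Subgroup G} [Z.Normal] (h : ⁅B, B⁆ ≤ A) :
    ⁅As Z B, As Z B⁆ ≤ As Z A := by
  rw [Subgroup.commutator_le]
  intro x hx y hy
  change ev (MulEquiv.refl (G ⧸ Z)) ⁅x, y⁆ ∈ A
  rw [map_commutatorElement]
  exact h (Subgroup.commutator_mem_commutator hx hy)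

end Str

end MP799fdf
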