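import Pool.Agent.Lib.MP_799fdf_al.Str.Defs

set_option autoImplicit false

open scoped commutatorElement

namespace MP799fdf

namespace Str

open Inn

private theorem comm_cc_a2 {X : Type} [Group X] {a b u v : X} (d2 : Commute u b)
    (d3 : Commute u v) (d4 : Commute v a) :
    ⁅a * u, b * v⁆ = ⁅a, b⁆ := by
  have c2 : Commute v a⁻¹ := Commute.inv_right d4
  calc ⁅a * u, b * v⁆ = a * (u * (b * v)) * u⁻¹ * a⁻¹ * v⁻¹ * b⁻¹ := by
        rw [commutatorElement_def]
        group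
    _ = a * b * (v * a⁻¹) * v⁻¹ * b⁻¹ := by
        rw [(d2.mul_right d3).eq]
        group
    _ = ⁅a, b⁆ := by
        rw [c2.eq, commutatorElement_def]
        group

section

variable {G U : Type} [Group G] [Group U] {R N Z : Subgroup G} [Z.Normal] {f : U →* G}

/-- PROOF. See the proof of `Knf.Setup.perf_hom` (`Knf/BasA.lean`): the equaliser of `α, β` contains all commutators, because
`(β l)⁻¹ * α l` is mapped by `f` into `Z` and so is central in `U` (`S.cent`). -/
theorem Dat.hom_eq (S : Dat G U R N Z f) {L : Type} [Group L]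
    (hL : ⁅(⊤ : Subgroup L), (⊤ : Subgroup L)⁆ = ⊤) (α β : L →* U)
    (h : ∀ l, ((f (α l) : G) : G ⧸ Z) = ((f (β l) : G) : G ⧸ Z)) : α = β := by
  have hz : ∀ l, ∀ v : U, ((β l)⁻¹ * α l) * v = v * ((β l)⁻¹ * α l) := by
    intro l
    apply S.cent
    rw [map_mul, map_inv]
    exact QuotientGroup.eq.1 (h l).symm
  have key : (⊤ : Subgroup L) ≤ α.eqLocus β := by
    rw [← hL, Subgroup.commutator_le]
    intro x _ y _
    show α ⁅x, y⁆ = β ⁅x, y⁆
    rw [map_commutatorElement, map_commutatorElement]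
    have hx := hz x
    have hy := hz y
    obtain ⟨u, hu⟩ : ∃ u : U, (β x)⁻¹ * α x = u := ⟨_, rfl⟩
    obtain ⟨v, hv⟩ : ∃ v : U, (β y)⁻¹ * α y = v := ⟨_, rfl⟩
    have ex : α x = β x * u := by rw [← hu]; group
    have ey : α y = β y * v := by rw [← hv]; group
    rw [hu] at hx
    rw [hv] at hy
    rw [ex, ey]
    exact comm_cc_a2 (hx _) (hx _) (hy _)
  ext l
  exact key (Subgroup.mem_top l)

/-- Lifts are unique. -/
theorem Dat.lift_eq (S : Dat G U R N Z f) {σ : (G ⧸ Z) ≃* (G ⧸ Z)} {b c : U ≃* U}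
    (hb : LiU f σ b) (hc : LiU f σ c) : b = c := by
  have h1 : b.toMonoidHom = c.toMonoidHom := by
    apply S.hom_eq S.perf
    intro l
    exact (hb l).trans (hc l).symm
  ext u
  exact DFunLike.congr_fun h1 u

/-- Two homomorphisms from `U` (perfect) to `G` with values in `R` that agree modulo `Z` are equal.

PROOF. The same, in `R`, whose elements in `Z` are central in `R` (`S.cen`). -/
theorem Dat.hom_eqR (S : Dat G U R N Z f) (α β : U →* G) (hα : ∀ u, α u ∈ R) (hβ : ∀ u, β u ∈ R)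
    (h : ∀ u, ((α u : G) : G ⧸ Z) = ((β u : G) : G ⧸ Z)) : α = β := by
  have hz : ∀ l, ∀ r ∈ R, ((β l)⁻¹ * α l) * r = r * ((β l)⁻¹ * α l) := by
    intro l
    exact (S.cen _).1 (QuotientGroup.eq.1 (h l).symm)
  have key : (⊤ : Subgroup U) ≤ α.eqLocus β := by
    rw [← S.perf, Subgroup.commutator_le]
    intro x _ y _
    show α ⁅x, y⁆ = β ⁅x, y⁆
    rw [map_commutatorElement, map_commutatorElement]
    have hx := hz x
    have hy := hz y
    obtain ⟨u, hu⟩ : ∃ u : G, (β x)⁻¹ * α x = u := ⟨_, rfl⟩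
    obtain ⟨v, hv⟩ : ∃ v : G, (β y)⁻¹ * α y = v := ⟨_, rfl⟩
    have ex : α x = β x * u := by rw [← hu]; group
    have ey : α y = β y * v := by rw [← hv]; group
    have hvR : v ∈ R := by
      rw [← hv]
      exact R.mul_mem (R.inv_mem (hβ y)) (hα y)
    rw [hu] at hx
    rw [hv] at hy
    rw [ex, ey]
    exact comm_cc_a2 (hx _ (hβ y)) (hx _ hvR) (hy _ (hβ x))
  ext l
  exact key (Subgroup.mem_top l)

/-- `R ⊓ Z ≤ N`. PROOF. See `Knf.Setup.RZ` in `Knf/Defs.lean`. -/
theorem Dat.RZ (S : Dat G U R N Z f) (r : G) (hr : r ∈ R) (hz : r ∈ Z) : r ∈ N := by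
  have hR := S.loc.nR
  have hn : (R ⊓ Z).Normal := Subgroup.normal_inf_normal R Z
  rcases S.loc.max _ hn inf_le_left with h1 | h1
  · exact h1 ⟨hr, hz⟩
  · exfalso
    have h2 : R ≤ Z := inf_eq_left.1 h1
    have h3 : ⁅R, R⁆ = ⊥ := by
      rw [Subgroup.commutator_eq_bot_iff_le_centralizer]
      intro x hx
      rw [Subgroup.mem_centralizer_iff]
      intro y hy
      exact (S.cen y).1 (h2 hy) x hx
    rw [S.loc.perf] at h3
    have h4 := S.loc.lt
    rw [h3] at h4
    exact not_lt_bot h4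

/-- PROOF. `g : G`; `c` from `S.lift (MulAut.conj (g : G ⧸ Z))`; `f (c u)` and `g * f u * g⁻¹` agree modulo `Z`, so are equal by
`hom_eqR`. -/
theorem Dat.conj_lift (S : Dat G U R N Z f) (g : G) :
    ∃ c : U ≃* U, LiU f (MulAut.conj (g : G ⧸ Z)) c ∧ ∀ u, f (c u) = g * f u * g⁻¹ := by
  obtain ⟨c, hc⟩ := S.lift (MulAut.conj (g : G ⧸ Z))
  refine ⟨c, hc, ?_⟩
  have hfR : ∀ u, f u ∈ R := by
    intro u
    rw [← S.ran]
    exact ⟨u, rfl⟩
  have h1 : f.comp c.toMonoidHom = (MulAut.conj g).toMonoidHom.comp f := by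
    apply S.hom_eqR
    · intro u
      exact hfR _
    · intro u
      exact S.loc.nR.conj_mem _ (hfR u) g
    · intro u
      exact hc u
  intro u
  exact DFunLike.congr_fun h1 u

end

end Str

end MP799fdf
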