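import Pool.Agent.Lib.MP_799fdf_al.Str.A1
import Pool.Agent.Lib.MP_799fdf_al.Str.A2

set_option autoImplicit false

open scoped commutatorElement

namespace MP799fdf

namespace Str

open Inn

section

variable {G U : Type} [Group G] [Group U] {R N Z D : Subgroup G} [Z.Normal] {f : U →* G}

/-- The map `U → G*`.

PROOF. `choose b hb using S.lift`; `ι u = ⟨fun s => f (b s u), _⟩`: `(f (b s u) : G ⧸ Z) = s (f u)` and
`(f (b 1 u) : G ⧸ Z) = f u`. Every lift of `s` is `b s` (`S.lift_eq`). -/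
theorem exists_iota (S : Dat G U R N Z f) :
    ∃ ι : U →* Sg G Z, ∀ (s : (G ⧸ Z) ≃* (G ⧸ Z)) (b : U ≃* U), LiU f s b →
      ∀ u, ev s (ι u) = f (b u) := by
  choose b hb using S.lift
  have h1 : ∀ u, ((f (b (MulEquiv.refl _) u) : G) : G ⧸ Z) = ((f u : G) : G ⧸ Z) := fun u =>
    hb (MulEquiv.refl _) u
  refine ⟨{ toFun := fun u => ⟨fun s => f (b s u), fun s => ?_⟩, map_one' := ?_, map_mul' := ?_ },
    ?_⟩
  · show ((f (b s u) : G) : G ⧸ Z) = s ((f (b (MulEquiv.refl _) u) : G) : G ⧸ Z)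
    rw [h1 u]
    exact hb s u
  · apply Subtype.ext
    funext s
    show f (b s 1) = 1
    rw [map_one, map_one]
  · intro u v
    apply Subtype.ext
    funext s
    show f (b s (u * v)) = f (b s u) * f (b s v)
    rw [map_mul, map_mul]
  · intro s b' hb' u
    have h := S.lift_eq hb' (hb s)
    rw [h]
    rfl

variable {ι : U →* Sg G Z}

/-- PROOF. `s = 1` (`MulEquiv.refl`), `b = MulEquiv.refl U`. -/
theorem iota_one (S : Dat G U R N Z f)
    (hι : ∀ (s : (G ⧸ Z) ≃* (G ⧸ Z)) (b : U ≃* U), LiU f s b → ∀ u, ev s (ι u) = f (b u)) (u : U) :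
    ev (MulEquiv.refl _) (ι u) = f u := by
  exact hι (MulEquiv.refl _) (MulEquiv.refl U) (fun _ => rfl) u

/-- PROOF. `x`, `g = ev 1 x`; `c` from `S.conj_lift g`. For every `s` with lift `b` (`S.lift`): `ev s (x * ι u * x⁻¹) =
(ev s x) * f (b u) * (ev s x)⁻¹`, and `ev s (ι (c u)) = f (b (c u))`. Both are homomorphisms of `u` with values in `R`, and they agree modulo
`Z` : `s (g) * s (f u) * s (g)⁻¹ = s (g * f u * g⁻¹)` (`ev_coset`). So they are equal (`hom_eqR`). -/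
theorem iota_conj (S : Dat G U R N Z f)
    (hι : ∀ (s : (G ⧸ Z) ≃* (G ⧸ Z)) (b : U ≃* U), LiU f s b → ∀ u, ev s (ι u) = f (b u))
    (x : Sg G Z) : ∃ c : U ≃* U,
      (∀ u, f (c u) = ev (MulEquiv.refl _) x * f u * (ev (MulEquiv.refl _) x)⁻¹) ∧
        ∀ u, x * ι u * x⁻¹ = ι (c u) := by
  obtain ⟨c, hc, hc2⟩ := S.conj_lift (ev (MulEquiv.refl _) x)
  refine ⟨c, hc2, fun u => ?_⟩
  apply Subtype.ext
  funext s
  obtain ⟨b, hb⟩ := S.lift s
  have hx := ev_coset s x
  have key : (MulAut.conj (ev s x)).toMonoidHom.comp (f.comp b.toMonoidHom) =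
      f.comp (b.toMonoidHom.comp c.toMonoidHom) := by
    apply S.hom_eqR
    · intro v
      obtain ⟨c', _, hc'⟩ := S.conj_lift (ev s x)
      rw [← S.ran]
      exact ⟨c' (b v), hc' (b v)⟩
    · intro v
      rw [← S.ran]
      exact ⟨b (c v), rfl⟩
    · intro v
      show ((ev s x * f (b v) * (ev s x)⁻¹ : G) : G ⧸ Z) = ((f (b (c v)) : G) : G ⧸ Z)
      rw [hb (c v), hc2 v, QuotientGroup.mk_mul, QuotientGroup.mk_mul, QuotientGroup.mk_inv, hx,
        hb v, QuotientGroup.mk_mul, QuotientGroup.mk_mul, QuotientGroup.mk_inv, map_mul, map_mul,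
        map_inv]
  have h2 := DFunLike.congr_fun key u
  have h3 : ev s (x * ι u * x⁻¹) = ev s (ι (c u)) := by
    rw [map_mul, map_mul, map_inv, hι s b hb u, hι s b hb (c u)]
    exact h2
  exact h3

/-- PROOF. `ι u = 1` iff all coordinates are `1`; `S.lift` for `→`... -/
theorem iota_ker (S : Dat G U R N Z f)
    (hι : ∀ (s : (G ⧸ Z) ≃* (G ⧸ Z)) (b : U ≃* U), LiU f s b → ∀ u, ev s (ι u) = f (b u)) (u : U) :
    ι u = 1 ↔ ∀ (s : (G ⧸ Z) ≃* (G ⧸ Z)) (b : U ≃* U), LiU f s b → f (b u) = 1 := by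
  constructor
  · intro h s b hb
    rw [← hι s b hb u, h, map_one]
  · intro h
    apply Subtype.ext
    funext s
    obtain ⟨b, hb⟩ := S.lift s
    have h3 : ev s (ι u) = 1 := by
      rw [hι s b hb u]
      exact h s b hb
    exact h3

end

end Str

end MP799fdf
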