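import Pool.Agent.Lib.MP_799fdf_al.Str.B1

set_option autoImplicit false

open scoped commutatorElement

namespace MP799fdf

namespace Str

open Inn

section

variable {G U : Type} [Group G] [Group U] {R N Z D : Subgroup G} [Z.Normal] {f : U →* G}
variable {ι : U →* Sg G Z}

private theorem b2b_mem (S : Dat G U R N Z f)
    (hι : ∀ (s : (G ⧸ Z) ≃* (G ⧸ Z)) (b : U ≃* U), LiU f s b → ∀ u, ev s (ι u) = f (b u))
    (s : (G ⧸ Z) ≃* (G ⧸ Z)) (u : U) : ev s (ι u) ∈ R := by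
  obtain ⟨b, hb⟩ := S.lift s
  rw [hι s b hb u, ← S.ran]
  exact ⟨b u, rfl⟩

private theorem b2b_ext {x y : Sg G Z} (h : ∀ s, ev s x = ev s y) : x = y :=
  Subtype.ext (funext h)

/-- PROOF. `→`: `x` with `ev 1 x ∈ Z`: then `ev s x ∈ Z` for all `s` (`ev_coset`, `map_one`), and `ev s (ι u) ∈ R` commutes with it.
`←`: apply `ev 1`. -/
theorem iota_cen (S : Dat G U R N Z f)
    (hι : ∀ (s : (G ⧸ Z) ≃* (G ⧸ Z)) (b : U ≃* U), LiU f s b → ∀ u, ev s (ι u) = f (b u))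
    (x : Sg G Z) : x ∈ As Z Z ↔ ∀ r ∈ ι.range, x * r = r * x := by
  constructor
  · rintro hx _ ⟨u, rfl⟩
    have hx' : ev (MulEquiv.refl (G ⧸ Z)) x ∈ Z := hx
    refine b2b_ext fun s => ?_
    rw [map_mul, map_mul]
    have h1 : ev s x ∈ Z := by
      have h2 := ev_coset s x
      rw [(QuotientGroup.eq_one_iff _).2 hx', map_one] at h2
      exact (QuotientGroup.eq_one_iff _).1 h2
    exact (S.cen _).1 h1 _ (b2b_mem S hι s u)
  · intro h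
    change ev (MulEquiv.refl (G ⧸ Z)) x ∈ Z
    refine (S.cen _).2 fun r hr => ?_
    rw [← S.ran] at hr
    obtain ⟨u, rfl⟩ := hr
    have h1 := congrArg (ev (MulEquiv.refl (G ⧸ Z))) (h (ι u) ⟨u, rfl⟩)
    rwa [map_mul, map_mul, iota_one S hι u] at h1

/-- PROOF. `f u ∈ N ≤ Z`. -/
theorem iota_NZ (S : Dat G U R N Z f)
    (hι : ∀ (s : (G ⧸ Z) ≃* (G ⧸ Z)) (b : U ≃* U), LiU f s b → ∀ u, ev s (ι u) = f (b u)) :
    (N.comap f).map ι ≤ As Z Z := by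
  rintro _ ⟨u, hu, rfl⟩
  change ev (MulEquiv.refl (G ⧸ Z)) (ι u) ∈ Z
  rw [iota_one S hι u]
  exact S.NZ hu

/-- PROOF. `ι u ∈ Ds Z D`: `f (b u) ∈ R ⊓ D = ⊥` for all lifts `b`, so all coordinates of `ι u` are `1`. -/
theorem iota_inf (S : Dat G U R N Z f)
    (hι : ∀ (s : (G ⧸ Z) ≃* (G ⧸ Z)) (b : U ≃* U), LiU f s b → ∀ u, ev s (ι u) = f (b u))
    (hRD : R ⊓ D = ⊥) : ι.range ⊓ Ds Z D = ⊥ := by
  rw [eq_bot_iff]
  rintro _ ⟨⟨u, rfl⟩, hD⟩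
  rw [Subgroup.mem_bot]
  refine b2b_ext fun s => ?_
  have h1 : ev s (ι u) ∈ R ⊓ D := ⟨b2b_mem S hι s u, hD s⟩
  rw [hRD, Subgroup.mem_bot] at h1
  rw [h1, map_one]

end

end Str

end MP799fdf
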