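import Pool.Agent.Lib.MP_799fdf_al.Str.B1

set_option autoImplicit false

open scoped commutatorElement

namespace MP799fdf

namespace Str

open Inn

section

variable {G U : Type} [Group G] [Group U] {R N Z D : Subgroup G} [Z.Normal] {f : U →* G}
variable {ι : U →* Sg G Z}

private theorem b2a_left {V : Type} [Group V] (v k w : V) (hk : ∀ y, k * y = y * k) :
    ⁅v * k, w⁆ = ⁅v, w⁆ := by
  have h1 : k * w * k⁻¹ = w := by rw [hk w, mul_inv_cancel_right]
  calc ⁅v * k, w⁆ = v * (k * w * k⁻¹) * v⁻¹ * w⁻¹ := by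
        simp only [commutatorElement_def]
        group
    _ = ⁅v, w⁆ := by rw [h1, commutatorElement_def]

private theorem b2a_right {V : Type} [Group V] (v w k : V) (hk : ∀ y, k * y = y * k) :
    ⁅v, w * k⁆ = ⁅v, w⁆ := by
  have h1 : k * v⁻¹ * k⁻¹ = v⁻¹ := by rw [hk v⁻¹, mul_inv_cancel_right]
  calc ⁅v, w * k⁆ = v * w * (k * v⁻¹ * k⁻¹) * w⁻¹ := by
        simp only [commutatorElement_def]
        group
    _ = ⁅v, w⁆ := by rw [h1, commutatorElement_def]

/-- `(ι U, ι (f⁻¹ N))` is local in `G*`.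

PROOF. Normal: `iota_conj` (for `N`: `f (c u) = g * f u * g⁻¹ ∈ N`). `lt`: if `ι (f⁻¹ N) = ι U` then applying `ev 1` (`iota_one`, `S.ran`)
`R ≤ N`. `perf`: `S.perf`. `max`: let `M ≤ ι U` be normal in `G*`, `M₀ = M.comap ι`, `F = M₀.map f = M.map (ev 1)`, which is normal in `G`
(`ev_surj`) and `≤ R`. If `F ≤ N` then `M ≤ ι (f⁻¹ N)`. If `F = R` then `M₀ ⊔ f.ker = ⊤`, `f.ker` is central (`S.cent`), so
`⊤ = ⁅⊤, ⊤⁆ = ⁅M₀ ⊔ f.ker, M₀ ⊔ f.ker⁆ ≤ M₀`, and `M = ι U`. -/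
theorem iota_loc (S : Dat G U R N Z f)
    (hι : ∀ (s : (G ⧸ Z) ≃* (G ⧸ Z)) (b : U ≃* U), LiU f s b → ∀ u, ev s (ι u) = f (b u)) :
    Loc ι.range ((N.comap f).map ι) := by
  have hone : ∀ u, ev (MulEquiv.refl _) (ι u) = f u := iota_one S hι
  have hfR : ∀ u, f u ∈ R := fun u => by
    rw [← S.ran]
    exact ⟨u, rfl⟩
  refine ⟨⟨?_⟩, ⟨?_⟩, ?_, ?_, ?_⟩
  · rintro _ ⟨u, rfl⟩ x
    obtain ⟨c, -, hc⟩ := iota_conj S hι x
    exact ⟨c u, (hc u).symm⟩
  · rintro _ ⟨u, hu, rfl⟩ x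
    obtain ⟨c, hc1, hc⟩ := iota_conj S hι x
    refine ⟨c u, ?_, (hc u).symm⟩
    show f (c u) ∈ N
    rw [hc1]
    exact S.loc.nN.conj_mem _ hu _
  · refine lt_of_le_not_ge ?_ ?_
    · rintro _ ⟨u, -, rfl⟩
      exact ⟨u, rfl⟩
    · intro hle
      refine (not_le_of_gt S.loc.lt) ?_
      intro r hr
      rw [← S.ran] at hr
      obtain ⟨u, rfl⟩ := hr
      obtain ⟨v, hv, hvu⟩ := hle (⟨u, rfl⟩ : ι u ∈ ι.range)
      have h1 : f v = f u := by rw [← hone v, ← hone u, hvu]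
      rw [← h1]
      exact hv
  · rw [MonoidHom.range_eq_map, ← Subgroup.map_commutator, S.perf]
  · intro M hM hMle
    have hF : (M.map (ev (MulEquiv.refl (G ⧸ Z)))).Normal := hM.map _ (ev_surj _)
    have hFR : M.map (ev (MulEquiv.refl (G ⧸ Z))) ≤ R := by
      rintro _ ⟨x, hx, rfl⟩
      obtain ⟨u, rfl⟩ := hMle hx
      rw [hone]
      exact hfR u
    rcases S.loc.max _ hF hFR with h | h
    · left
      intro x hx
      obtain ⟨u, rfl⟩ := hMle hx
      refine ⟨u, ?_, rfl⟩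
      show f u ∈ N
      rw [← hone u]
      exact h ⟨ι u, hx, rfl⟩
    · right
      have hdec : ∀ u : U, ∃ v k : U, ι v ∈ M ∧ (∀ y, k * y = y * k) ∧ u = v * k := by
        intro u
        have h1 : f u ∈ M.map (ev (MulEquiv.refl (G ⧸ Z))) := by
          rw [h]
          exact hfR u
        obtain ⟨x, hx, hxu⟩ := h1
        obtain ⟨v, rfl⟩ := hMle hx
        rw [hone] at hxu
        refine ⟨v, v⁻¹ * u, hx, S.cent _ ?_, (mul_inv_cancel_left v u).symm⟩
        rw [map_mul, map_inv, hxu, inv_mul_cancel]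
        exact Z.one_mem
      have h2 : ⁅(⊤ : Subgroup U), (⊤ : Subgroup U)⁆ ≤ M.comap ι := by
        rw [Subgroup.commutator_le]
        intro u _ w _
        obtain ⟨v, k, hv, hk, rfl⟩ := hdec u
        obtain ⟨v', k', hv', hk', rfl⟩ := hdec w
        rw [b2a_left _ _ _ hk, b2a_right _ _ _ hk', Subgroup.mem_comap, map_commutatorElement,
          commutatorElement_def]
        exact M.mul_mem (M.mul_mem (M.mul_mem hv hv') (M.inv_mem hv)) (M.inv_mem hv')
      rw [S.perf] at h2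
      refine le_antisymm hMle ?_
      rintro _ ⟨u, rfl⟩
      exact h2 (Subgroup.mem_top u)

/-- PROOF. `ev 1` maps `ι U` onto `R` and `ι (f⁻¹ N)` onto `N`, and `x ∈ ι U` with `ev 1 x ∈ N` is in `ι (f⁻¹ N)`; so
`((N.comap f).map ι).relIndex ι.range = N.relIndex R`, e.g. by `Subgroup.relIndex_comap`: on `ι.range`, `(N.comap f).map ι` and
`N.comap (ev 1)` have the same intersection with `ι.range` (`Subgroup.inf_relIndex_right`). -/
theorem iota_index (S : Dat G U R N Z f)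
    (hι : ∀ (s : (G ⧸ Z) ≃* (G ⧸ Z)) (b : U ≃* U), LiU f s b → ∀ u, ev s (ι u) = f (b u)) :
    ((N.comap f).map ι).relIndex ι.range = N.relIndex R := by
  have hone : ∀ u, ev (MulEquiv.refl _) (ι u) = f u := iota_one S hι
  have h1 : (N.comap f).map ι ⊓ ι.range =
      N.comap (ev (MulEquiv.refl (G ⧸ Z))) ⊓ ι.range := by
    ext x
    rw [Subgroup.mem_inf, Subgroup.mem_inf, Subgroup.mem_comap]
    constructor
    · rintro ⟨⟨u, hu, rfl⟩, h⟩
      refine ⟨?_, h⟩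
      rw [hone]
      exact hu
    · rintro ⟨hx, ⟨u, rfl⟩⟩
      rw [hone] at hx
      exact ⟨⟨u, hx, rfl⟩, u, rfl⟩
  have h2 : ι.range.map (ev (MulEquiv.refl (G ⧸ Z))) = R := by
    rw [← S.ran, ← MonoidHom.range_comp]
    congr 1
    exact MonoidHom.ext hone
  rw [← Subgroup.inf_relIndex_right, h1, Subgroup.inf_relIndex_right, Subgroup.relIndex_comap, h2]

end

end Str

end MP799fdf
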