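import Pool.Agent.Lib.MP_799fdf_al.Str.B2

set_option autoImplicit false

open scoped commutatorElement

namespace MP799fdf

namespace Str

open Inn

section

variable {G U : Type} [Group G] [Group U] {R N Z D : Subgroup G} [Z.Normal] {f : U →* G}
variable {ι : U →* Sg G Z}

/-- The other local subgroups of `G*` with the same index.

PROOF. For every `s`, if `L` is not `≤ (ev s).ker` then `Loc (L.map (ev s)) (M.map (ev s))` (`loc_map`, `ev_surj`) with the same index
(`Knf.relIndex_map_loc`, `iota_index`), so `L.map (ev s) = R` or `≤ D`. If `L.map (ev s) ≤ D` for all `s` (this includes the case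
`L ≤ (ev s).ker`) then `L ≤ Ds Z D`. Otherwise `L.map (ev s) = R` for some `s`. Let `V = ι.range`, `W = (N.comap f).map ι`, `Loc V W`
(`iota_loc`). `V.map (ev s) = R` too (`S.lift`, `S.ran`). `L ⊓ V` is normal and `≤ V`. If `L ⊓ V ≤ W` then `⁅L, V⁆ ≤ W`, and applying `ev s`
`R = ⁅R, R⁆ ≤ W.map (ev s) ≤ Z ⊓ R` (for `u` with `f u ∈ N`, `f (b u) ∈ Z` as `b` is a lift of `s`), `≤ N` by `S.RZ`, a contradiction.
So `V ≤ L`; by `hL.max` `V ≤ M` or `V = L`; the first would give `R = V.map (ev s) ≤ M.map (ev s)`, against the `lt` of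
`Loc (L.map (ev s)) (M.map (ev s))`. -/
theorem iota_other [Finite G] [Finite (Sg G Z)] (S : Dat G U R N Z f)
    (hι : ∀ (s : (G ⧸ Z) ≃* (G ⧸ Z)) (b : U ≃* U), LiU f s b → ∀ u, ev s (ι u) = f (b u))
    (hother : ∀ L M : Subgroup G, Loc L M → M.relIndex L = N.relIndex R → L = R ∨ L ≤ D)
    (L M : Subgroup (Sg G Z)) (hL : Loc L M)
    (hi : M.relIndex L = ((N.comap f).map ι).relIndex ι.range) : L = ι.range ∨ L ≤ Ds Z D := by
  have hV : Loc ι.range ((N.comap f).map ι) := iota_loc S hι
  by_cases hD : ∀ s : (G ⧸ Z) ≃* (G ⧸ Z), L.map (ev s) ≤ D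
  · right
    intro x hx s
    exact hD s (Subgroup.mem_map_of_mem _ hx)
  · left
    rw [not_forall] at hD
    obtain ⟨s, hs⟩ := hD
    have hk : ¬ L ≤ (ev s).ker := by
      intro hk
      apply hs
      rw [(Subgroup.map_eq_bot_iff _).2 hk]
      exact bot_le
    have hLs : Loc (L.map (ev s)) (M.map (ev s)) := loc_map (ev s) (ev_surj s) hL hk
    have hidx : (M.map (ev s)).relIndex (L.map (ev s)) = N.relIndex R := by
      rw [Mnf.relIndex_map_loc (ev s) hL hk, hi, iota_index S hι]
    have h1 : L.map (ev s) = R := by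
      rcases hother _ _ hLs hidx with h1 | h1
      · exact h1
      · exact absurd h1 hs
    obtain ⟨b, hb⟩ := S.lift s
    have hfR : ∀ u, f u ∈ R := by
      intro u
      rw [← S.ran]
      exact ⟨u, rfl⟩
    have hVs : (ι.range).map (ev s) = R := by
      refine le_antisymm ?_ ?_
      · rintro _ ⟨_, ⟨u, rfl⟩, rfl⟩
        rw [hι s b hb u]
        exact hfR _
      · intro r hr
        rw [← S.ran] at hr
        obtain ⟨u, rfl⟩ := hr
        refine ⟨ι (b.symm u), ⟨_, rfl⟩, ?_⟩
        rw [hι s b hb, MulEquiv.apply_symm_apply]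
    have hWs : ((N.comap f).map ι).map (ev s) ≤ N := by
      rintro _ ⟨_, ⟨u, hu, rfl⟩, rfl⟩
      rw [hι s b hb u]
      refine S.RZ _ (hfR _) ?_
      have h5 := hb u
      have h6 : ((f u : G) : G ⧸ Z) = 1 := (QuotientGroup.eq_one_iff _).2 (S.NZ hu)
      rw [h6, map_one] at h5
      exact (QuotientGroup.eq_one_iff _).1 h5
    have hLn := hL.nR
    have hVn := hV.nR
    rcases hV.max (L ⊓ ι.range) inferInstance inf_le_right with h2 | h2
    · exfalso
      have h3 : ⁅L, ι.range⁆ ≤ (N.comap f).map ι :=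
        (le_inf (Subgroup.commutator_le_left L ι.range)
          (Subgroup.commutator_le_right L ι.range)).trans h2
      have h4 : R ≤ N := by
        have h5 := (Subgroup.map_mono (f := ev s) h3).trans hWs
        rw [Subgroup.map_commutator, h1, hVs, S.loc.perf] at h5
        exact h5
      exact absurd S.loc.lt (not_lt_of_ge h4)
    · have hVL : ι.range ≤ L := inf_eq_right.1 h2
      rcases hL.max ι.range hVn hVL with h3 | h3
      · exfalso
        have h4 := Subgroup.map_mono (f := ev s) h3
        rw [hVs, ← h1] at h4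
        exact absurd hLs.lt (not_lt_of_ge h4)
      · exact h3.symm

end

end Str

end MP799fdf
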