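import Pool.Agent.Lib.MP_799fdf_al.Str.C2

set_option autoImplicit false

open scoped commutatorElement

namespace MP799fdf

namespace Str

open Inn

/-- From a normal section to one that is characteristic modulo `Z`. -/
theorem exists_char_sec {G U : Type} [Group G] [Finite G] [Group U] {R N Z : Subgroup G} [Z.Normal]
    {f : U →* G} {p : ℕ} (hp : p.Prime) (S : Dat G U R N Z f) {A₀ B₀ : Subgroup G}
    (hA₀ : A₀.Normal) (hB₀ : B₀.Normal) (hRZA : R ⊔ Z ≤ A₀) (hAB : A₀ < B₀) (hBA : ⁅B₀, B₀⁆ ≤ A₀)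
    (hd : p ∣ A₀.relIndex B₀) :
    ∃ A B : Subgroup G, A.Normal ∧ B.Normal ∧ R ⊔ Z ≤ A ∧ A ≤ B ∧ ⁅B, B⁆ ≤ A ∧ p ∣ A.relIndex B ∧
      ∀ (σ : (G ⧸ Z) ≃* (G ⧸ Z)) (x y : G), σ (x : G ⧸ Z) = (y : G ⧸ Z) → x ∈ A → y ∈ A := by
  have hRA : R ≤ A₀ := le_sup_left.trans hRZA
  have hZA : Z ≤ A₀ := le_sup_right.trans hRZA
  obtain ⟨B₁, hB₁, hAB₁, -, hBA₁, hBp₁⟩ := Knf.exists_elem hp A₀ B₀ hA₀ hB₀ hAB hBA hd
  have hsurj : Function.Surjective (QuotientGroup.mk' Z) := QuotientGroup.mk'_surjective Z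
  have hfin : Finite (G ⧸ Z) := Finite.of_surjective _ hsurj
  have hkerA : (QuotientGroup.mk' Z).ker ≤ A₀ := by
    rw [QuotientGroup.ker_mk']
    exact hZA
  have hR₀ : (R.map (QuotientGroup.mk' Z)).Characteristic := by
    rw [Subgroup.characteristic_iff_map_le]
    intro σ y hy
    obtain ⟨x, hx, rfl⟩ := Subgroup.mem_map.1 hy
    obtain ⟨r, hr, rfl⟩ := Subgroup.mem_map.1 hx
    obtain ⟨b, hb⟩ := S.lift σ
    rw [← S.ran] at hr
    obtain ⟨u, rfl⟩ := hr
    refine Subgroup.mem_map.2 ⟨f (b u), ?_, hb u⟩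
    rw [← S.ran]
    exact ⟨b u, rfl⟩
  have hlt : A₀.map (QuotientGroup.mk' Z) < B₁.map (QuotientGroup.mk' Z) := by
    refine lt_of_le_of_ne (Subgroup.map_mono hAB₁.le) fun e => ?_
    refine absurd hAB₁ (not_lt_of_ge ?_)
    have h5 : B₁ ≤ (A₀.map (QuotientGroup.mk' Z)).comap (QuotientGroup.mk' Z) := by
      rw [← Subgroup.map_le_iff_le_comap, e]
    rwa [Subgroup.comap_map_eq_self hkerA] at h5
  have hcom : ⁅B₁.map (QuotientGroup.mk' Z), B₁.map (QuotientGroup.mk' Z)⁆ ≤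
      A₀.map (QuotientGroup.mk' Z) := by
    rw [← Subgroup.map_commutator]
    exact Subgroup.map_mono hBA₁
  have hpow : ∀ b ∈ B₁.map (QuotientGroup.mk' Z), b ^ p ∈ A₀.map (QuotientGroup.mk' Z) := by
    intro b hb
    obtain ⟨x, hx, rfl⟩ := Subgroup.mem_map.1 hb
    rw [← map_pow]
    exact Subgroup.mem_map_of_mem _ (hBp₁ x hx)
  obtain ⟨A', B', hA', hB', hRA', hAB', hBA', hBp'⟩ := Inf.exists_char p
    (R.map (QuotientGroup.mk' Z)) hR₀ (A₀.map (QuotientGroup.mk' Z))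
    (B₁.map (QuotientGroup.mk' Z)) (hA₀.map _ hsurj) (hB₁.map _ hsurj)
    (Subgroup.map_mono hRA) hlt hcom hpow
  refine ⟨A'.comap (QuotientGroup.mk' Z), B'.comap (QuotientGroup.mk' Z),
    (Subgroup.normal_of_characteristic A').comap _, (Subgroup.normal_of_characteristic B').comap _,
    sup_le (Subgroup.map_le_iff_le_comap.1 hRA') ?_, Subgroup.comap_mono hAB'.le, ?_, ?_, ?_⟩
  · intro z hz
    rw [Subgroup.mem_comap]
    have h2 : (QuotientGroup.mk' Z) z = 1 := (QuotientGroup.eq_one_iff z).2 hz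
    rw [h2]
    exact A'.one_mem
  · rw [Subgroup.commutator_le]
    intro x hx y hy
    rw [Subgroup.mem_comap, map_commutatorElement]
    exact hBA' (Subgroup.commutator_mem_commutator hx hy)
  · rw [Subgroup.relIndex_comap, Subgroup.map_comap_eq_self_of_surjective hsurj]
    have hn : A'.Normal := Subgroup.normal_of_characteristic A'
    have hcard : Nat.card (B'.map (QuotientGroup.mk' A')) = A'.relIndex B' := by
      rw [← Subgroup.relIndex_ker, QuotientGroup.ker_mk']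
    obtain ⟨b, hb, hbA⟩ := Set.exists_of_ssubset (show (A' : Set (G ⧸ Z)) ⊂ B' from hAB')
    have hfin3 : Finite ((G ⧸ Z) ⧸ A') := Finite.of_surjective _ (QuotientGroup.mk'_surjective A')
    rw [← hcard]
    have hpf : Fact p.Prime := ⟨hp⟩
    have ho : orderOf (QuotientGroup.mk' A' b) = p := by
      refine orderOf_eq_prime ?_ ?_
      · rw [← map_pow]
        exact (QuotientGroup.eq_one_iff _).2 (hBp' b hb)
      · intro e
        exact hbA ((QuotientGroup.eq_one_iff _).1 e)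
    have hmem : QuotientGroup.mk' A' b ∈ B'.map (QuotientGroup.mk' A') :=
      Subgroup.mem_map_of_mem _ hb
    have h3 : orderOf (⟨QuotientGroup.mk' A' b, hmem⟩ : B'.map (QuotientGroup.mk' A')) = p := by
      rw [← ho]
      exact Subgroup.orderOf_mk _ _
    rw [← h3]
    exact orderOf_dvd_natCard _
  · intro σ x y hxy h7
    rw [Subgroup.mem_comap] at h7 ⊢
    have h5 := hA'.fixed σ
    have h6 : (QuotientGroup.mk' Z) y = σ ((QuotientGroup.mk' Z) x) := hxy.symm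
    rw [h6]
    rw [← h5] at h7
    exact h7

end Str

end MP799fdf
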