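import Pool.Agent.Lib.MP_799fdf_al.Mnf.StC

set_option autoImplicit false

open scoped commutatorElement

namespace MP799fdf

namespace Str

open Inn

/-- `b` lifts `σ` -/
def LiU {G U : Type} [Group G] [Group U] {Z : Subgroup G} [Z.Normal] (f : U →* G)
    (σ : (G ⧸ Z) ≃* (G ⧸ Z)) (b : U ≃* U) : Prop :=
  ∀ u, ((f (b u) : G) : G ⧸ Z) = σ ((f u : G) : G ⧸ Z)

/-- `f : U → R` is a cover of the local subgroup `R`, and all automorphisms of `G / Z` lift to `U`. -/
structure Dat (G U : Type) [Group G] [Group U] (R N Z : Subgroup G) [Z.Normal] (f : U →* G) :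
    Prop where
  loc : Loc R N
  cen : ∀ g : G, g ∈ Z ↔ ∀ r ∈ R, g * r = r * g
  NZ : N ≤ Z
  ran : f.range = R
  perf : ⁅(⊤ : Subgroup U), (⊤ : Subgroup U)⁆ = ⊤
  cent : ∀ u, f u ∈ Z → ∀ v, u * v = v * u
  lift : ∀ σ : (G ⧸ Z) ≃* (G ⧸ Z), ∃ b : U ≃* U, LiU f σ b

/-- The group `G*` of all families `x` of elements of `G`, indexed by the automorphisms `s` of `G / Z`, such that
`x s` is in the coset `s (x 1 Z)`. -/
def Sg (G : Type) [Group G] (Z : Subgroup G) [Z.Normal] :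
    Subgroup (((G ⧸ Z) ≃* (G ⧸ Z)) → G) where
  carrier := {x | ∀ s : (G ⧸ Z) ≃* (G ⧸ Z),
    ((x s : G) : G ⧸ Z) = s ((x (MulEquiv.refl _) : G) : G ⧸ Z)}
  one_mem' := fun s => by
    rw [Pi.one_apply, Pi.one_apply, QuotientGroup.mk_one, map_one]
  mul_mem' := by
    intro x y hx hy s
    rw [Pi.mul_apply, Pi.mul_apply, QuotientGroup.mk_mul, QuotientGroup.mk_mul, map_mul, hx s, hy s]
  inv_mem' := by
    intro x hx s
    rw [Pi.inv_apply, Pi.inv_apply, QuotientGroup.mk_inv, QuotientGroup.mk_inv, map_inv, hx s]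

/-- the coordinates of `G*` -/
def ev {G : Type} [Group G] {Z : Subgroup G} [Z.Normal] (s : (G ⧸ Z) ≃* (G ⧸ Z)) :
    Sg G Z →* G :=
  (Pi.evalMonoidHom (fun _ => G) s).comp (Sg G Z).subtype

theorem ev_apply {G : Type} [Group G] {Z : Subgroup G} [Z.Normal] (s : (G ⧸ Z) ≃* (G ⧸ Z))
    (x : Sg G Z) : ev s x = (x : ((G ⧸ Z) ≃* (G ⧸ Z)) → G) s := rfl

theorem ev_coset {G : Type} [Group G] {Z : Subgroup G} [Z.Normal] (s : (G ⧸ Z) ≃* (G ⧸ Z))
    (x : Sg G Z) : ((ev s x : G) : G ⧸ Z) = s ((ev (MulEquiv.refl _) x : G) : G ⧸ Z) := x.2 s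

/-- the subgroup of `G*` of all `x` with coordinates in `D` -/
def Ds {G : Type} [Group G] (Z D : Subgroup G) [Z.Normal] : Subgroup (Sg G Z) where
  carrier := {x | ∀ s, ev s x ∈ D}
  one_mem' := fun s => by
    rw [map_one]
    exact D.one_mem
  mul_mem' := fun hx hy s => by
    rw [map_mul]
    exact D.mul_mem (hx s) (hy s)
  inv_mem' := fun hx s => by
    rw [map_inv]
    exact D.inv_mem (hx s)

/-- the subgroup of `G*` of all `x` with first coordinate in `A` -/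
def As {G : Type} [Group G] (Z A : Subgroup G) [Z.Normal] : Subgroup (Sg G Z) :=
  A.comap (ev (MulEquiv.refl (G ⧸ Z)))

end Str

end MP799fdf
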